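import Mathlib

/-!
# A nonseparable AF algebra not isomorphic to its opposite (ZFC)

Abstract part: given finite dimensional C*-factors `B s` indexed by the ternary tree, pairwise of
different dimension, and three projections `P s j` in each of them with
`P₀P₁P₂P₀ = λ P₀`, `λ` not real, we take the algebra generated by `⊕ B s` and the elements `a_t`,
`t` a branch, `a_t(s) = P s (t |s|)` for `s` an initial segment of `t`.
-/

set_option autoImplicit false

namespace Pool.Agent.H400R3.AFOp

open scoped ENNReal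
open TopologicalSpace

/-- nodes of the ternary tree -/
abbrev T := List (Fin 3)

/-- initial segment of a branch -/
def br (t : ℕ → Fin 3) (n : ℕ) : T := (List.range n).map t

@[simp] lemma br_length (t : ℕ → Fin 3) (n : ℕ) : (br t n).length = n := by simp [br]

lemma br_succ (t : ℕ → Fin 3) (n : ℕ) : br t (n + 1) = br t n ++ [t n] := by
  simp [br, List.range_succ]

lemma br_eq_iff (t t' : ℕ → Fin 3) (n : ℕ) : br t n = br t' n ↔ ∀ i < n, t i = t' i := by
  simp [br, List.map_inj_left]

/-- a stage: finitely many branches, separated at level `k` -/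
structure Stage where
  F : Finset (ℕ → Fin 3)
  k : ℕ
  sep : ∀ t ∈ F, ∀ t' ∈ F, br t k = br t' k → t = t'

lemma sep_le {t t' : ℕ → Fin 3} {n m : ℕ} (hnm : n ≤ m) (h : br t m = br t' m) :
    br t n = br t' n := by
  rw [br_eq_iff] at *
  exact fun i hi => h i (lt_of_lt_of_le hi hnm)

/-- any finite set of branches is separated at some level beyond `k` -/
lemma exists_sep (F : Finset (ℕ → Fin 3)) (k : ℕ) :
    ∃ m, k ≤ m ∧ ∀ t ∈ F, ∀ t' ∈ F, br t m = br t' m → t = t' := by
  classical
  have h : ∀ p : (ℕ → Fin 3) × (ℕ → Fin 3), ∃ n, br p.1 n = br p.2 n → p.1 = p.2 := by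
    intro p
    by_cases hp : p.1 = p.2
    · exact ⟨0, fun _ => hp⟩
    · obtain ⟨i, hi⟩ := Function.ne_iff.1 hp
      refine ⟨i + 1, fun h => ?_⟩
      rw [br_eq_iff] at h
      exact absurd (h i (Nat.lt_succ_self i)) hi
  choose n hn using h
  refine ⟨max k ((F ×ˢ F).sup n), le_max_left _ _, fun t ht t' ht' h => hn (t, t') ?_⟩
  refine sep_le ?_ h
  exact le_trans (Finset.le_sup (f := n) (Finset.mk_mem_product ht ht')) (le_max_right _ _)

section abstr

variable {B : T → Type} [∀ s, CStarAlgebra (B s)] (P : ∀ s, Fin 3 → B s)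

/-- the projections -/
structure Proj (P : ∀ s, Fin 3 → B s) : Prop where
  sa : ∀ s j, star (P s j) = P s j
  idem : ∀ s j, P s j * P s j = P s j
  ne : ∀ s j, P s j ≠ 0

/-- the stage algebra -/
def D (hP : Proj P) (S : Stage) : NonUnitalStarSubalgebra ℂ (lp B ∞) where
  carrier := {a | ∃ lam : (ℕ → Fin 3) → ℂ, ∀ s : T, S.k ≤ s.length →
    (∀ t ∈ S.F, s = br t s.length → a s = lam t • P s (t s.length)) ∧
    ((∀ t ∈ S.F, s ≠ br t s.length) → a s = 0)}
  zero_mem' := ⟨fun _ => 0, fun s _ => ⟨fun t _ _ => by simp, fun _ => by simp⟩⟩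
  add_mem' := by
    rintro a b ⟨l, hl⟩ ⟨l', hl'⟩
    refine ⟨fun t => l t + l' t, fun s hs => ⟨fun t ht h => ?_, fun h => ?_⟩⟩
    · rw [lp.coeFn_add, Pi.add_apply, (hl s hs).1 t ht h, (hl' s hs).1 t ht h, add_smul]
    · rw [lp.coeFn_add, Pi.add_apply, (hl s hs).2 h, (hl' s hs).2 h, add_zero]
  mul_mem' := by
    rintro a b ⟨l, hl⟩ ⟨l', hl'⟩
    refine ⟨fun t => l t * l' t, fun s hs => ⟨fun t ht h => ?_, fun h => ?_⟩⟩
    · rw [lp.infty_coeFn_mul, Pi.mul_apply, (hl s hs).1 t ht h, (hl' s hs).1 t ht h,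
        smul_mul_smul_comm, hP.idem]
    · rw [lp.infty_coeFn_mul, Pi.mul_apply, (hl s hs).2 h, zero_mul]
  smul_mem' := by
    rintro c a ⟨l, hl⟩
    refine ⟨fun t => c * l t, fun s hs => ⟨fun t ht h => ?_, fun h => ?_⟩⟩
    · rw [lp.coeFn_smul, Pi.smul_apply, (hl s hs).1 t ht h, smul_smul]
    · rw [lp.coeFn_smul, Pi.smul_apply, (hl s hs).2 h, smul_zero]
  star_mem' := by
    rintro a ⟨l, hl⟩
    refine ⟨fun t => star (l t), fun s hs => ⟨fun t ht h => ?_, fun h => ?_⟩⟩
    · rw [lp.star_apply, (hl s hs).1 t ht h, star_smul, hP.sa]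
    · rw [lp.star_apply, (hl s hs).2 h, star_zero]

variable {P}

lemma D_mono (hP : Proj P) {S S' : Stage} (hF : S.F ⊆ S'.F) (hk : S.k ≤ S'.k) :
    D P hP S ≤ D P hP S' := by
  classical
  rintro a ⟨l, hl⟩
  refine ⟨fun t => if t ∈ S.F then l t else 0, fun s hs => ⟨fun t ht h => ?_, fun h => ?_⟩⟩
  · by_cases htF : t ∈ S.F
    · simp only [htF, if_true]
      exact (hl s (hk.trans hs)).1 t htF h
    · simp only [htF, if_false, zero_smul]
      refine (hl s (hk.trans hs)).2 fun t1 ht1 h1 => htF ?_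
      have : br t S'.k = br t1 S'.k := sep_le hs (by rw [← h, ← h1])
      rwa [S'.sep t ht t1 (hF ht1) this]
  · exact (hl s (hk.trans hs)).2 fun t ht => h t (hF ht)

lemma D_directed (hP : Proj P) : Directed (· ≤ ·) (D P hP) := by
  classical
  intro S S'
  obtain ⟨m, hm, hsep⟩ := exists_sep (S.F ∪ S'.F) (max S.k S'.k)
  refine ⟨⟨S.F ∪ S'.F, m, hsep⟩, D_mono hP Finset.subset_union_left ?_,
    D_mono hP Finset.subset_union_right ?_⟩
  · exact (le_max_left _ _).trans hm
  · exact (le_max_right _ _).trans hm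

instance : Nonempty Stage := ⟨⟨∅, 0, by simp⟩⟩

variable (P) in
/-- the AF algebra -/
noncomputable def Alg (hP : Proj P) : NonUnitalStarSubalgebra ℂ (lp B ∞) :=
  (⨆ S, D P hP S).topologicalClosure

lemma mem_Alg (hP : Proj P) (a : lp B ∞) :
    a ∈ Alg P hP ↔ ∀ ε > 0, ∃ S : Stage, ∃ b ∈ D P hP S, ‖a - b‖ < ε := by
  have h1 : a ∈ Alg P hP ↔ a ∈ closure ((⨆ S, D P hP S : NonUnitalStarSubalgebra ℂ (lp B ∞)) :
      Set (lp B ∞)) := Iff.rfl
  rw [h1, NonUnitalStarSubalgebra.coe_iSup_of_directed (D_directed hP), Metric.mem_closure_iff]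
  constructor
  · intro h ε hε
    obtain ⟨b, hb, hab⟩ := h ε hε
    obtain ⟨S, hS⟩ := Set.mem_iUnion.1 hb
    exact ⟨S, b, hS, by rwa [← dist_eq_norm]⟩
  · intro h ε hε
    obtain ⟨S, b, hb, hab⟩ := h ε hε
    exact ⟨b, Set.mem_iUnion.2 ⟨S, hb⟩, by rwa [dist_eq_norm]⟩

lemma D_le (hP : Proj P) (S : Stage) : D P hP S ≤ Alg P hP :=
  (le_iSup (D P hP) S).trans (NonUnitalStarSubalgebra.le_topologicalClosure _)

instance isClosed_Alg (hP : Proj P) : IsClosed (Alg P hP : Set (lp B ∞)) :=
  NonUnitalStarSubalgebra.isClosed_topologicalClosure _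

/-- the element `a_t` -/
noncomputable def elt (hP : Proj P) (t : ℕ → Fin 3) : lp B ∞ :=
  ⟨fun s => open Classical in if s = br t s.length then P s (t s.length) else 0, by
    apply memℓp_infty
    refine ⟨1, ?_⟩
    rintro _ ⟨s, rfl⟩
    simp only
    split_ifs
    · have h := CStarRing.norm_star_mul_self (x := P s (t s.length))
      rw [hP.sa, hP.idem] at h
      have h0 := norm_nonneg (P s (t s.length))
      by_contra hlt
      push Not at hlt
      nlinarith
    · simp⟩

lemma elt_on (hP : Proj P) (t : ℕ → Fin 3) (n : ℕ) :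
    (elt hP t : lp B ∞) (br t n) = P (br t n) (t n) := by
  have : (elt hP t : lp B ∞) (br t n) = if br t n = br t (br t n).length then
      P (br t n) (t (br t n).length) else 0 := rfl
  rw [this, if_pos (by simp)]
  simp

lemma elt_off (hP : Proj P) (t : ℕ → Fin 3) (s : T) (hs : s ≠ br t s.length) :
    (elt hP t : lp B ∞) s = 0 := by
  have : (elt hP t : lp B ∞) s = if s = br t s.length then
      P s (t s.length) else 0 := rfl
  rw [this, if_neg hs]

lemma elt_mem (hP : Proj P) (t : ℕ → Fin 3) : elt hP t ∈ Alg P hP := by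
  classical
  refine D_le hP ⟨{t}, 0, by simp⟩ ?_
  refine ⟨fun _ => 1, fun s _ => ⟨fun t' ht' h => ?_, fun h => ?_⟩⟩
  · rw [Finset.mem_singleton] at ht'
    subst ht'
    rw [one_smul]
    have h2 := elt_on hP t' s.length
    rw [← h] at h2
    exact h2
  · exact elt_off hP t s (h t (Finset.mem_singleton_self t))

/-- elements supported at one node -/
noncomputable def sg (s : T) (x : B s) : lp B ∞ := open Classical in lp.single ∞ s x

lemma sg_self (s : T) (x : B s) : (sg s x : lp B ∞) s = x := by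
  classical
  simp [sg]

lemma sg_ne {s r : T} (h : r ≠ s) (x : B s) : (sg s x : lp B ∞) r = 0 := by
  classical
  simp [sg, h]

lemma sg_mem (hP : Proj P) (s : T) (x : B s) : sg s x ∈ Alg P hP := by
  refine D_le hP ⟨∅, s.length + 1, by simp⟩ ?_
  refine ⟨fun _ => 0, fun r hr => ⟨fun t ht => absurd ht (by simp), fun _ => ?_⟩⟩
  apply sg_ne
  rintro rfl
  simp at hr

lemma lp_ext {a b : lp B ∞} (h : ∀ s, a s = b s) : a = b := by
  ext s
  exact h s

lemma norm_proj_eq_one {C : Type} [NonUnitalCStarAlgebra C] {p : C} (hsa : star p = p)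
    (hid : p * p = p) (hne : p ≠ 0) : ‖p‖ = 1 := by
  have h := CStarRing.norm_star_mul_self (x := p)
  rw [hsa, hid] at h
  have h0 : 0 < ‖p‖ := norm_pos_iff.2 hne
  nlinarith

/-- **Nonseparability.** -/
lemma not_separable (hP : Proj P) : ¬ SeparableSpace (Alg P hP) := by
  intro hsep
  have hdist : ∀ t t' : ℕ → Fin 3, t ≠ t' →
      1 ≤ dist (⟨elt hP t, elt_mem hP t⟩ : Alg P hP) ⟨elt hP t', elt_mem hP t'⟩ := by
    intro t t' hne
    obtain ⟨i, hi⟩ := Function.ne_iff.1 hne
    have h1 : br t (i + 1) ≠ br t' (i + 1) := by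
      intro h
      rw [br_eq_iff] at h
      exact hi (h i (Nat.lt_succ_self i))
    have h2 : (elt hP t - elt hP t' : lp B ∞) (br t (i + 1)) = P (br t (i + 1)) (t (i + 1)) := by
      rw [lp.coeFn_sub, Pi.sub_apply, elt_on, elt_off, sub_zero]
      simpa using h1
    have h3 : ‖(elt hP t - elt hP t' : lp B ∞) (br t (i + 1))‖ ≤ ‖elt hP t - elt hP t'‖ :=
      lp.norm_apply_le_norm ENNReal.top_ne_zero _ _
    rw [h2, norm_proj_eq_one (hP.sa _ _) (hP.idem _ _) (hP.ne _ _)] at h3
    rw [Subtype.dist_eq, dist_eq_norm]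
    exact h3
  have hc : Countable (ℕ → Fin 3) := by
    refine Pairwise.countable_of_isOpen_disjoint
      (s := fun t : ℕ → Fin 3 => Metric.ball (⟨elt hP t, elt_mem hP t⟩ : Alg P hP) (1 / 2))
      ?_ (fun t => Metric.isOpen_ball) (fun t => ⟨_, Metric.mem_ball_self (by norm_num)⟩)
    intro t t' hne
    apply Metric.ball_disjoint_ball
    have := hdist t t' hne
    linarith
  obtain ⟨f, hf⟩ := exists_injective_nat (ℕ → Fin 3)
  have hg : Function.Injective
      (fun (S : Set ℕ) (n : ℕ) => open Classical in if n ∈ S then (0 : Fin 3) else 1) := by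
    intro S S' h
    ext n
    have := congrFun h n
    simp only at this
    by_cases h1 : n ∈ S <;> by_cases h2 : n ∈ S' <;> simp_all
  exact Function.cantor_injective _ (hf.comp hg)

/-- **AF property.** -/
lemma af (hP : Proj P) [∀ s, FiniteDimensional ℂ (B s)] :
    ∃ S : Set (NonUnitalStarSubalgebra ℂ (Alg P hP)), DirectedOn (· ≤ ·) S ∧
      (∀ s ∈ S, FiniteDimensional ℂ (Submodule.span ℂ (s : Set (Alg P hP)))) ∧
      Dense (⋃ s ∈ S, (s : Set (Alg P hP))) := by
  classical
  refine ⟨Set.range fun S : Stage =>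
    (D P hP S).comap (NonUnitalStarSubalgebraClass.subtype (Alg P hP)), ?_, ?_, ?_⟩
  · rintro _ ⟨S, rfl⟩ _ ⟨S', rfl⟩
    obtain ⟨S'', h1, h2⟩ := D_directed hP S S'
    exact ⟨_, ⟨S'', rfl⟩, fun x hx => h1 hx, fun x hx => h2 hx⟩
  · rintro _ ⟨S, rfl⟩
    -- evaluation at the nodes of length at most `k`
    have : Finite {s : T // s.length ≤ S.k} := List.finite_length_le (Fin 3) S.k
    have : Fintype {s : T // s.length ≤ S.k} := Fintype.ofFinite _
    let V := ∀ s : {s : T // s.length ≤ S.k}, B s.1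
    let N : Submodule ℂ (Alg P hP) :=
      { carrier := ((D P hP S).comap (NonUnitalStarSubalgebraClass.subtype (Alg P hP)) :
          Set (Alg P hP))
        add_mem' := fun ha hb => add_mem ha hb
        zero_mem' := zero_mem _
        smul_mem' := fun c x hx => SMulMemClass.smul_mem c hx }
    have hspan : Submodule.span ℂ
        ((((D P hP S).comap (NonUnitalStarSubalgebraClass.subtype (Alg P hP)) :
          NonUnitalStarSubalgebra ℂ (Alg P hP)) : Set (Alg P hP))) = N :=
      Submodule.span_eq N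
    rw [hspan]
    let ev : N →ₗ[ℂ] V :=
      { toFun := fun a s => (a.1.1 : lp B ∞) s.1
        map_add' := fun a b => rfl
        map_smul' := fun c a => rfl }
    have hinj : Function.Injective ev := by
      rw [injective_iff_map_eq_zero]
      intro a ha
      obtain ⟨l, hl⟩ := (show (a.1.1 : lp B ∞) ∈ D P hP S from a.2)
      have hz : ∀ s : T, s.length ≤ S.k → (a.1.1 : lp B ∞) s = 0 := fun s hs =>
        congrFun ha ⟨s, hs⟩
      have hlam : ∀ t ∈ S.F, l t = 0 := by
        intro t ht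
        have h1 := (hl (br t S.k) (by simp)).1 t ht (by simp)
        rw [hz _ (by simp)] at h1
        exact (smul_eq_zero.1 h1.symm).resolve_right (hP.ne _ _)
      apply Subtype.ext
      apply Subtype.ext
      apply lp_ext
      intro s
      rcases le_or_gt S.k s.length with hs | hs
      · by_cases h : ∀ t ∈ S.F, s ≠ br t s.length
        · exact (hl s hs).2 h
        · push Not at h
          obtain ⟨t, ht, hst⟩ := h
          rw [(hl s hs).1 t ht hst, hlam t ht, zero_smul]
          rfl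
      · exact hz s hs.le
    exact FiniteDimensional.of_injective ev hinj
  · intro x
    rw [Metric.mem_closure_iff]
    intro ε hε
    obtain ⟨S, b, hb, hxb⟩ := (mem_Alg hP x.1).1 x.2 ε hε
    refine ⟨⟨b, D_le hP S hb⟩, ?_, ?_⟩
    · exact Set.mem_biUnion (Set.mem_range_self S) (show b ∈ D P hP S from hb)
    · rw [Subtype.dist_eq, dist_eq_norm]
      exact hxb

end abstr

end Pool.Agent.H400R3.AFOp
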