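import Pool.Agent.H400R3.AFOp

/-!
# The algebra is not isomorphic to its opposite
-/

set_option autoImplicit false

namespace Pool.Agent.H400R3.AFOp

open scoped ENNReal
open TopologicalSpace

/-- a product of two near products -/
lemma norm_mul_sub_mul_le {C : Type} [NonUnitalCStarAlgebra C] {a b a' b' : C} {r r' : ℝ}
    (ha : ‖a - a'‖ ≤ r) (hb : ‖b - b'‖ ≤ r') (hna : ‖a‖ ≤ 1) (hnb : ‖b'‖ ≤ 1) :
    ‖a * b - a' * b'‖ ≤ r + r' := by
  have h : a * b - a' * b' = a * (b - b') + (a - a') * b' := by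
    rw [mul_sub, sub_mul]; abel
  rw [h]
  calc ‖a * (b - b') + (a - a') * b'‖ ≤ ‖a * (b - b')‖ + ‖(a - a') * b'‖ := norm_add_le _ _
    _ ≤ ‖a‖ * ‖b - b'‖ + ‖a - a'‖ * ‖b'‖ := add_le_add (norm_mul_le _ _) (norm_mul_le _ _)
    _ ≤ 1 * r' + r * 1 := by
        have := norm_nonneg (a - a')
        have := norm_nonneg (b - b')
        have := norm_nonneg a
        have := norm_nonneg b'
        gcongr
        · linarith
    _ = r + r' := by ring

lemma norm_proj_le {C : Type} [NonUnitalCStarAlgebra C] {p : C} (hsa : star p = p)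
    (hid : p * p = p) : ‖p‖ ≤ 1 := by
  by_cases h : p = 0
  · simp [h]
  · exact (norm_proj_eq_one hsa hid h).le

/-- an antimultiplicative map moves one of the three projections -/
lemma three {C : Type} [NonUnitalCStarAlgebra C] (p : Fin 3 → C) (hsa : ∀ j, star (p j) = p j)
    (hid : ∀ j, p j * p j = p j) (hne : p 0 ≠ 0) (lam : ℂ) (hlam : lam.im = 1 / 4)
    (hlam2 : ‖lam‖ ≤ 1 / 2) (h : p 0 * p 1 * p 2 * p 0 = lam • p 0)
    (σ : C → C) (hmul : ∀ x y, σ (x * y) = σ y * σ x) (hsmul : ∀ (c : ℂ) x, σ (c • x) = c • σ x)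
    (hstar : ∀ x, σ (star x) = star (σ x)) : ∃ j, 1 / 10 ≤ ‖σ (p j) - p j‖ := by
  by_contra hcon
  push Not at hcon
  have hn : ∀ j, ‖p j‖ ≤ 1 := fun j => norm_proj_le (hsa j) (hid j)
  have hσn : ∀ j, ‖σ (p j)‖ ≤ 1 := fun j =>
    norm_proj_le (by rw [← hstar, hsa]) (by rw [← hmul, hid])
  have e1 : σ (p 0) * (σ (p 2) * (σ (p 1) * σ (p 0))) = lam • σ (p 0) := by
    rw [← hsmul, ← h, hmul, hmul, hmul]
  have e2 : p 0 * (p 2 * (p 1 * p 0)) = star lam • p 0 := by
    have := congrArg star h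
    simp only [star_mul, star_smul, hsa] at this
    exact this
  have n1 : ‖σ (p 1) * σ (p 0) - p 1 * p 0‖ ≤ 1 / 10 + 1 / 10 :=
    norm_mul_sub_mul_le (hcon 1).le (hcon 0).le (hσn 1) (hn 0)
  have m1 : ‖p 1 * p 0‖ ≤ 1 := (norm_mul_le _ _).trans (by
    have := norm_nonneg (p 1)
    have := norm_nonneg (p 0)
    nlinarith [hn 1, hn 0])
  have n2 : ‖σ (p 2) * (σ (p 1) * σ (p 0)) - p 2 * (p 1 * p 0)‖ ≤ 1 / 10 + (1 / 10 + 1 / 10) :=
    norm_mul_sub_mul_le (hcon 2).le n1 (hσn 2) m1
  have m2 : ‖p 2 * (p 1 * p 0)‖ ≤ 1 := (norm_mul_le _ _).trans (by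
    have := norm_nonneg (p 2)
    have := norm_nonneg (p 1 * p 0)
    nlinarith [hn 2])
  have n3 : ‖σ (p 0) * (σ (p 2) * (σ (p 1) * σ (p 0))) - p 0 * (p 2 * (p 1 * p 0))‖ ≤
      1 / 10 + (1 / 10 + (1 / 10 + 1 / 10)) :=
    norm_mul_sub_mul_le (hcon 0).le n2 (hσn 0) m2
  rw [e1, e2] at n3
  have e3 : (lam - star lam) • p 0 =
      (lam • σ (p 0) - star lam • p 0) - lam • (σ (p 0) - p 0) := by
    rw [sub_smul, smul_sub]; abel
  have e4 : ‖lam - star lam‖ = 1 / 2 := by
    have : lam - star lam = ((1 / 2 : ℝ) : ℂ) * Complex.I := by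
      apply Complex.ext
      · simp
      · simp [hlam]; norm_num
    rw [this, norm_mul, Complex.norm_I, mul_one, Complex.norm_real]
    norm_num
  have e5 : ‖(lam - star lam) • p 0‖ = 1 / 2 := by
    rw [norm_smul, e4, norm_proj_eq_one (hsa 0) (hid 0) hne, mul_one]
  have e6 : ‖lam • (σ (p 0) - p 0)‖ ≤ 1 / 2 * (1 / 10) := by
    rw [norm_smul]
    have := norm_nonneg (σ (p 0) - p 0)
    have := norm_nonneg lam
    gcongr
    exact (hcon 0).le
  have e7 := norm_sub_le (lam • σ (p 0) - star lam • p 0) (lam • (σ (p 0) - p 0))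
  rw [← e3, e5] at e7
  linarith

/-- a projection close to a multiple of a projection is close to the projection -/
lemma near_mult {C : Type} [NonUnitalCStarAlgebra C] {p y : C} (hp : star p = p)
    (hp2 : p * p = p) (hp0 : p ≠ 0) (hy : star y = y) (hy2 : y * y = y) (hy0 : y ≠ 0) {c : ℂ}
    (h : ‖y - c • p‖ ≤ 1 / 100) : ‖y - p‖ < 1 / 10 := by
  have np := norm_proj_eq_one hp hp2 hp0
  have ny := norm_proj_eq_one hy hy2 hy0
  have hc1 : ‖c • p‖ = ‖c‖ := by rw [norm_smul, np, mul_one]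
  have hc2 : |‖y‖ - ‖c • p‖| ≤ ‖y - c • p‖ := abs_norm_sub_norm_le _ _
  rw [ny, hc1] at hc2
  have hc3 := abs_le.1 (hc2.trans h)
  -- `‖y² - c² p‖`
  have e1 : y * y - (c • p) * (c • p) = y * (y - c • p) + (y - c • p) * (c • p) := by
    rw [mul_sub, sub_mul]; abel
  have e2 : ‖y * y - (c • p) * (c • p)‖ ≤ 3 / 100 := by
    rw [e1]
    calc _ ≤ ‖y * (y - c • p)‖ + ‖(y - c • p) * (c • p)‖ := norm_add_le _ _
      _ ≤ ‖y‖ * ‖y - c • p‖ + ‖y - c • p‖ * ‖c • p‖ :=
          add_le_add (norm_mul_le _ _) (norm_mul_le _ _)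
      _ ≤ 1 * (1 / 100) + 1 / 100 * 2 := by
          rw [ny, hc1]
          have := norm_nonneg (y - c • p)
          have := norm_nonneg c
          gcongr
          linarith
      _ = 3 / 100 := by norm_num
  rw [hy2, smul_mul_smul_comm, hp2] at e2
  have e3 : (c * c - c) • p = (y - c • p) - (y - (c * c) • p) := by
    rw [sub_smul]; abel
  have e4 : ‖c * c - c‖ ≤ 4 / 100 := by
    have : ‖(c * c - c) • p‖ = ‖c * c - c‖ := by rw [norm_smul, np, mul_one]
    rw [← this, e3]
    calc _ ≤ ‖y - c • p‖ + ‖y - (c * c) • p‖ := norm_sub_le _ _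
      _ ≤ 1 / 100 + 3 / 100 := add_le_add h e2
      _ = 4 / 100 := by norm_num
  have e5 : ‖c‖ * ‖c - 1‖ ≤ 4 / 100 := by
    rw [← norm_mul, mul_sub, mul_one]; exact e4
  have e6 : ‖c - 1‖ ≤ 8 / 100 := by
    have := norm_nonneg (c - 1)
    nlinarith
  have e7 : y - p = (y - c • p) + (c - 1) • p := by
    rw [sub_smul, one_smul]; abel
  rw [e7]
  calc _ ≤ ‖y - c • p‖ + ‖(c - 1) • p‖ := norm_add_le _ _
    _ ≤ 1 / 100 + 8 / 100 := by
        rw [norm_smul, np, mul_one]; exact add_le_add h e6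
    _ < 1 / 10 := by norm_num

/-- the branch prescribed by a rule -/
noncomputable def follow (β : T → Fin 3) : ℕ → T
  | 0 => []
  | n + 1 => follow β n ++ [β (follow β n)]

lemma exists_branch (β : T → Fin 3) : ∃ t : ℕ → Fin 3, ∀ n, t n = β (br t n) := by
  refine ⟨fun n => β (follow β n), fun n => ?_⟩
  have h : ∀ n, follow β n = br (fun n => β (follow β n)) n := by
    intro n
    induction n with
    | zero => rfl
    | succ n ih => rw [br_succ, ← ih]; rfl
  exact congrArg β (h n)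

section main

variable {B : T → Type} [∀ s, CStarAlgebra (B s)] {P : ∀ s, Fin 3 → B s}

/-- **Main theorem (abstract form).** -/
theorem not_iso_op [∀ s, FiniteDimensional ℂ (B s)] [∀ s, Nontrivial (B s)] (hP : Proj P)
    (hcen : ∀ s (z : B s), (∀ x, z * x = x * z) → z * z = z → z = 0 ∨ z = 1)
    (hdim : ∀ s r, Nonempty (B s ≃ₗ[ℂ] B r) → s = r)
    (lam : ℂ) (hlam : lam.im = 1 / 4) (hlam2 : ‖lam‖ ≤ 1 / 2)
    (h3 : ∀ s, P s 0 * P s 1 * P s 2 * P s 0 = lam • P s 0) :
    IsEmpty (Alg P hP ≃⋆ₐ[ℂ] (Alg P hP)ᵐᵒᵖ) := by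
  classical
  refine ⟨fun Φ => ?_⟩
  let A := Alg P hP
  let φ : A → A := fun a => (Φ a).unop
  let ψ : A → A := fun a => Φ.symm (MulOpposite.op a)
  have hφψ : ∀ a, φ (ψ a) = a := fun a => by
    show (Φ (Φ.symm (MulOpposite.op a))).unop = a
    rw [Φ.apply_symm_apply]; rfl
  have hψφ : ∀ a, ψ (φ a) = a := fun a => by
    show Φ.symm (MulOpposite.op (Φ a).unop) = a
    rw [MulOpposite.op_unop, Φ.symm_apply_apply]
  have hφadd : ∀ a b, φ (a + b) = φ a + φ b := fun a b => by
    show (Φ (a + b)).unop = _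
    rw [map_add]; rfl
  have hφmul : ∀ a b, φ (a * b) = φ b * φ a := fun a b => by
    show (Φ (a * b)).unop = _
    rw [map_mul]; rfl
  have hφsmul : ∀ (c : ℂ) a, φ (c • a) = c • φ a := fun c a => by
    show (Φ (c • a)).unop = _
    rw [map_smul]; rfl
  have hφstar : ∀ a, φ (star a) = star (φ a) := fun a => by
    show (Φ (star a)).unop = _
    rw [map_star]; rfl
  have hφ0 : φ 0 = 0 := by
    have := hφsmul 0 0
    simpa using this
  have hψmul : ∀ a b, ψ (a * b) = ψ b * ψ a := fun a b => by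
    have : φ (ψ (a * b)) = φ (ψ b * ψ a) := by rw [hφψ, hφmul, hφψ, hφψ]
    have h2 := congrArg ψ this
    rwa [hψφ, hψφ] at h2
  have hψadd : ∀ a b, ψ (a + b) = ψ a + ψ b := fun a b => by
    have : φ (ψ (a + b)) = φ (ψ a + ψ b) := by rw [hφψ, hφadd, hφψ, hφψ]
    have h2 := congrArg ψ this
    rwa [hψφ, hψφ] at h2
  have hψsmul : ∀ (c : ℂ) a, ψ (c • a) = c • ψ a := fun c a => by
    have : φ (ψ (c • a)) = φ (c • ψ a) := by rw [hφψ, hφsmul, hφψ]
    have h2 := congrArg ψ this
    rwa [hψφ, hψφ] at h2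
  have hψ0 : ψ 0 = 0 := by
    have := hψsmul 0 0
    simpa using this
  -- one-node elements
  let ι : ∀ s, B s → A := fun s x => ⟨sg s x, sg_mem hP s x⟩
  have hιself : ∀ s x, ((ι s x : A) : lp B ∞) s = x := fun s x => sg_self s x
  have hιne : ∀ s r x, r ≠ s → ((ι s x : A) : lp B ∞) r = 0 := fun s r x h => sg_ne h x
  have ext : ∀ a b : A, (∀ s, (a : lp B ∞) s = (b : lp B ∞) s) → a = b := fun a b h =>
    Subtype.ext (lp_ext h)
  have mulc : ∀ (a b : A) s, ((a * b : A) : lp B ∞) s = (a : lp B ∞) s * (b : lp B ∞) s := by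
    intro a b s
    rfl
  have starc : ∀ (a : A) s, ((star a : A) : lp B ∞) s = star ((a : lp B ∞) s) := by
    intro a s
    rfl
  have smulc : ∀ (c : ℂ) (a : A) s, ((c • a : A) : lp B ∞) s = c • ((a : lp B ∞) s) := by
    intro c a s
    rfl
  have addc : ∀ (a b : A) s, ((a + b : A) : lp B ∞) s = (a : lp B ∞) s + (b : lp B ∞) s := by
    intro a b s
    rfl
  have zeroc : ∀ s, ((0 : A) : lp B ∞) s = 0 := fun s => rfl
  have hιmul : ∀ s x (a : A), ι s x * a = ι s (x * (a : lp B ∞) s) := by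
    intro s x a
    apply ext
    intro r
    rw [mulc]
    by_cases hr : r = s
    · subst hr
      rw [hιself, hιself]
    · rw [hιne _ _ _ hr, hιne _ _ _ hr, zero_mul]
  have hιmul' : ∀ s x (a : A), a * ι s x = ι s ((a : lp B ∞) s * x) := by
    intro s x a
    apply ext
    intro r
    rw [mulc]
    by_cases hr : r = s
    · subst hr
      rw [hιself, hιself]
    · rw [hιne _ _ _ hr, hιne _ _ _ hr, mul_zero]
  let e : T → A := fun s => ι s 1
  have he : ∀ s (a : A), e s * a = ι s ((a : lp B ∞) s) := fun s a => by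
    rw [hιmul, one_mul]
  have he' : ∀ s (a : A), a * e s = ι s ((a : lp B ∞) s) := fun s a => by
    rw [hιmul', mul_one]
  have hιinj : ∀ s x y, ι s x = ι s y → x = y := by
    intro s x y h
    rw [← hιself s x, ← hιself s y, h]
  have hιadd : ∀ s x y, ι s (x + y) = ι s x + ι s y := by
    intro s x y
    apply ext
    intro r
    rw [addc]
    by_cases hr : r = s
    · subst hr
      rw [hιself, hιself, hιself]
    · rw [hιne _ _ _ hr, hιne _ _ _ hr, hιne _ _ _ hr, add_zero]
  have hιsmul : ∀ s (c : ℂ) x, ι s (c • x) = c • ι s x := by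
    intro s c x
    apply ext
    intro r
    rw [smulc]
    by_cases hr : r = s
    · subst hr
      rw [hιself, hιself]
    · rw [hιne _ _ _ hr, hιne _ _ _ hr, smul_zero]
  have hιstar : ∀ s x, ι s (star x) = star (ι s x) := by
    intro s x
    apply ext
    intro r
    rw [starc]
    by_cases hr : r = s
    · subst hr
      rw [hιself, hιself]
    · rw [hιne _ _ _ hr, hιne _ _ _ hr, star_zero]
  have hι0 : ∀ s, ι s 0 = 0 := by
    intro s
    have := hιsmul s 0 0
    simpa using this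
  -- central idempotents
  have cen01 : ∀ f : A, (∀ a, f * a = a * f) → f * f = f → ∀ r, (f : lp B ∞) r = 0 ∨
      (f : lp B ∞) r = 1 := by
    intro f hf hff r
    apply hcen
    · intro x
      have := congrArg (fun a : A => (a : lp B ∞) r) (hf (ι r x))
      simpa only [mulc, hιself] using this
    · have := congrArg (fun a : A => (a : lp B ∞) r) hff
      simpa only [mulc] using this
  have ecen : ∀ s (a : A), e s * a = a * e s := fun s a => by rw [he, he']
  have eidem : ∀ s, e s * e s = e s := fun s => by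
    rw [he]
    show ι s ((ι s 1 : A).1 s) = ι s 1
    rw [hιself]
  have ene : ∀ s, e s ≠ 0 := by
    intro s h
    have h1 : ((e s : A) : lp B ∞) s = ((0 : A) : lp B ∞) s := by rw [h]
    rw [show ((e s : A) : lp B ∞) s = 1 from hιself s 1, zeroc] at h1
    exact one_ne_zero h1
  -- `φ` permutes the `e s`
  have hperm : ∀ s, ∃ r, φ (e s) = e r := by
    intro s
    have f1 : ∀ a, φ (e s) * a = a * φ (e s) := by
      intro a
      have := congrArg φ (ecen s (ψ a))
      rw [hφmul, hφmul, hφψ] at this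
      exact this.symm
    have f2 : φ (e s) * φ (e s) = φ (e s) := by rw [← hφmul, eidem]
    have f3 : φ (e s) ≠ 0 := by
      intro h
      have := congrArg ψ h
      rw [hψφ, hψ0] at this
      exact ene s this
    obtain ⟨r, hr⟩ : ∃ r, ((φ (e s) : A) : lp B ∞) r = 1 := by
      by_contra hcon
      push Not at hcon
      apply f3
      apply ext
      intro r
      rw [zeroc]
      exact (cen01 _ f1 f2 r).resolve_right (hcon r)
    -- `g = ψ (e r)` is a nonzero central idempotent below `e s`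
    have g0 : φ (e s) * e r = e r := by rw [he', hr]
    have g1 : ψ (e r) * e s = ψ (e r) := by
      have := congrArg ψ g0
      rwa [hψmul, hψφ] at this
    have g2 : ∀ a, ψ (e r) * a = a * ψ (e r) := by
      intro a
      have := congrArg ψ (ecen r (φ a))
      rw [hψmul, hψmul, hψφ] at this
      exact this.symm
    have g3 : ψ (e r) * ψ (e r) = ψ (e r) := by rw [← hψmul, eidem]
    have g4 : ψ (e r) ≠ 0 := by
      intro h
      have := congrArg φ h
      rw [hφψ, hφ0] at this
      exact ene r this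
    have g5 : ψ (e r) = e s := by
      rw [he'] at g1
      rcases cen01 _ g2 g3 s with h | h
      · rw [h, hι0] at g1
        exact absurd g1.symm g4
      · rw [h] at g1
        exact g1.symm
    exact ⟨r, by rw [← g5, hφψ]⟩
  have hfix : ∀ s, φ (e s) = e s := by
    intro s
    obtain ⟨r, hr⟩ := hperm s
    have hr' : ψ (e r) = e s := by rw [← hr, hψφ]
    -- `φ (ι s x)` is supported at `r`
    have k1 : ∀ x, φ (ι s x) = ι r ((φ (ι s x) : A).1 r) := by
      intro x
      have : ι s x = ι s x * e s := by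
        rw [he', hιself]
      have h2 := congrArg φ this
      rw [hφmul, hr, he] at h2
      exact h2
    have k2 : ∀ y, ψ (ι r y) = ι s ((ψ (ι r y) : A).1 s) := by
      intro y
      have : ι r y = ι r y * e r := by
        rw [he', hιself]
      have h2 := congrArg ψ this
      rw [hψmul, hr', he] at h2
      exact h2
    have hsr : s = r := by
      apply hdim
      refine ⟨{ toFun := fun x => (φ (ι s x) : A).1 r
                invFun := fun y => (ψ (ι r y) : A).1 s
                map_add' := ?_, map_smul' := ?_, left_inv := ?_, right_inv := ?_ }⟩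
      · intro x y
        rw [hιadd, hφadd]; rfl
      · intro c x
        rw [hιsmul, hφsmul]; rfl
      · intro x
        show ((ψ (ι r ((φ (ι s x) : A).1 r)) : A) : lp B ∞) s = x
        rw [← k1 x, hψφ, hιself]
      · intro y
        show ((φ (ι s ((ψ (ι r y) : A).1 s)) : A) : lp B ∞) r = y
        rw [← k2 y, hφψ, hιself]
    rw [hr, ← hsr]
  -- the local maps
  let σ : ∀ s, B s → B s := fun s x => (φ (ι s x) : A).1 s
  have k1 : ∀ s x, φ (ι s x) = ι s (σ s x) := by
    intro s x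
    have : ι s x = ι s x * e s := by
      rw [he', hιself]
    have h2 := congrArg φ this
    rw [hφmul, hfix, he] at h2
    exact h2
  have hloc : ∀ (a : A) s, ((φ a : A) : lp B ∞) s = σ s ((a : lp B ∞) s) := by
    intro a s
    have h1 : φ (e s * a) = φ a * e s := by rw [hφmul, hfix]
    rw [he, he', k1] at h1
    exact (hιinj s _ _ h1).symm
  have hσmul : ∀ s x y, σ s (x * y) = σ s y * σ s x := by
    intro s x y
    apply hιinj s
    rw [← k1]
    have h1 : ι s (x * y) = ι s x * ι s y := by rw [hιmul, hιself]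
    rw [h1, hφmul, k1, k1, hιmul, hιself]
  have hσsmul : ∀ s (c : ℂ) x, σ s (c • x) = c • σ s x := by
    intro s c x
    apply hιinj s
    rw [← k1, hιsmul, hφsmul, k1, hιsmul]
  have hσstar : ∀ s x, σ s (star x) = star (σ s x) := by
    intro s x
    apply hιinj s
    rw [← k1, hιstar, hφstar, k1, hιstar]
  have hσinj : ∀ s x, σ s x = 0 → x = 0 := by
    intro s x h
    have h1 : φ (ι s x) = 0 := by rw [k1, h, hι0]
    have h2 := congrArg ψ h1
    rw [hψφ, hψ0] at h2
    apply hιinj s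
    rw [h2, hι0]
  -- choose the branch
  choose β hβ using fun s => three (P s) (hP.sa s) (hP.idem s) (hP.ne s 0) lam hlam hlam2 (h3 s)
    (σ s) (hσmul s) (hσsmul s) (hσstar s)
  obtain ⟨t, ht⟩ := exists_branch β
  let a : A := ⟨elt hP t, elt_mem hP t⟩
  obtain ⟨S, b, hb, hab⟩ := (mem_Alg hP (φ a : A).1).1 (φ a).2 (1 / 100) (by norm_num)
  obtain ⟨m, hm, hsep⟩ := exists_sep (insert t S.F) S.k
  have hbm : ∃ c : ℂ, b (br t m) = c • P (br t m) (t m) := by
    obtain ⟨l, hl⟩ := hb
    have hk : S.k ≤ (br t m).length := by simpa using hm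
    by_cases htF : t ∈ S.F
    · refine ⟨l t, ?_⟩
      have := (hl (br t m) hk).1 t htF (by simp)
      simpa using this
    · refine ⟨0, ?_⟩
      rw [zero_smul]
      refine (hl (br t m) hk).2 fun t' ht' h => htF ?_
      rw [br_length] at h
      rw [hsep t (Finset.mem_insert_self _ _) t' (Finset.mem_insert_of_mem ht') h]
      exact ht'
  obtain ⟨c, hc⟩ := hbm
  set s := br t m with hs
  have hval : ((φ a : A) : lp B ∞) s = σ s (P s (t m)) := by
    rw [hloc]
    congr 1
    exact elt_on hP t m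
  have hnear : ‖σ s (P s (t m)) - c • P s (t m)‖ ≤ 1 / 100 := by
    have h1 : ‖((φ a : A).1 - b : lp B ∞) s‖ ≤ ‖(φ a : A).1 - b‖ :=
      lp.norm_apply_le_norm ENNReal.top_ne_zero _ _
    rw [lp.coeFn_sub, Pi.sub_apply, hval, hc] at h1
    exact h1.trans hab.le
  have hfin := near_mult (hP.sa s (t m)) (hP.idem s (t m)) (hP.ne s (t m))
    (by rw [← hσstar, hP.sa]) (by rw [← hσmul, hP.idem])
    (fun h => hP.ne s (t m) (hσinj s _ h)) hnear
  have hbad := hβ s
  rw [← ht m] at hbad
  linarith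

end main

end Pool.Agent.H400R3.AFOp
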