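import Pool.Agent.H400R3.AFOp2

/-!
# The concrete blocks
-/

set_option autoImplicit false

namespace Pool.Agent.H400R3.AFOp

open scoped ENNReal
open TopologicalSpace

/-- the index set of the block at the node `s` -/
abbrev Ix (s : T) := Fin 2 ⊕ Fin (Encodable.encode s)

/-- the block at `s` -/
abbrev Bl (s : T) := EuclideanSpace ℂ (Ix s) →L[ℂ] EuclideanSpace ℂ (Ix s)

/-- three projections in `M₂` -/
noncomputable def Q : Fin 3 → Matrix (Fin 2) (Fin 2) ℂ :=
  ![!![1, 0; 0, 0], !![1 / 2, 1 / 2; 1 / 2, 1 / 2],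
    !![1 / 2, -Complex.I / 2; Complex.I / 2, 1 / 2]]

lemma Q_idem (j : Fin 3) : Q j * Q j = Q j := by
  fin_cases j <;> ext a b <;> fin_cases a <;> fin_cases b <;>
    simp [Q, Matrix.mul_apply, Fin.sum_univ_two] <;> ring_nf <;> simp [Complex.I_sq] <;> norm_num

lemma Q_sa (j : Fin 3) : (Q j).conjTranspose = Q j := by
  fin_cases j <;> ext a b <;> fin_cases a <;> fin_cases b <;>
    simp [Q, Matrix.conjTranspose_apply]

lemma Q_ne (j : Fin 3) : Q j ≠ 0 := by
  intro h
  have := congrFun (congrFun h 0) 0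
  fin_cases j <;> simp [Q] at this

/-- the constant -/
noncomputable def lam0 : ℂ := 1 / 4 + Complex.I / 4

lemma Q_prod : Q 0 * Q 1 * Q 2 * Q 0 = lam0 • Q 0 := by
  ext a b
  fin_cases a <;> fin_cases b <;> simp [Q, Matrix.mul_fin_two, lam0] <;> ring

/-- the embedding of `M₂` in the block -/
noncomputable def em (s : T) (M : Matrix (Fin 2) (Fin 2) ℂ) : Bl s :=
  Matrix.toEuclideanCLM (𝕜 := ℂ) (Matrix.fromBlocks M 0 0 0)

lemma em_mul (s : T) (M N : Matrix (Fin 2) (Fin 2) ℂ) : em s (M * N) = em s M * em s N := by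
  rw [em, em, em, ← map_mul, Matrix.fromBlocks_multiply]
  simp

lemma em_smul (s : T) (c : ℂ) (M : Matrix (Fin 2) (Fin 2) ℂ) : em s (c • M) = c • em s M := by
  rw [em, em, ← map_smul, Matrix.fromBlocks_smul]
  simp

lemma em_star (s : T) (M : Matrix (Fin 2) (Fin 2) ℂ) : em s (M.conjTranspose) = star (em s M) := by
  rw [em, em, ← map_star, Matrix.star_eq_conjTranspose, Matrix.fromBlocks_conjTranspose]
  simp

lemma em_inj (s : T) {M : Matrix (Fin 2) (Fin 2) ℂ} (h : em s M = 0) : M = 0 := by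
  have h1 : Matrix.fromBlocks M 0 0 (0 : Matrix (Fin (Encodable.encode s))
      (Fin (Encodable.encode s)) ℂ) = 0 :=
    (Matrix.toEuclideanCLM (𝕜 := ℂ) (n := Ix s)).injective (by rw [map_zero]; exact h)
  ext a b
  exact congrFun (congrFun h1 (Sum.inl a)) (Sum.inl b)

/-- the projections -/
noncomputable def Pr (s : T) (j : Fin 3) : Bl s := em s (Q j)

lemma proj : Proj Pr where
  sa s j := by rw [Pr, ← em_star, Q_sa]
  idem s j := by rw [Pr, ← em_mul, Q_idem]
  ne s j := fun h => Q_ne j (em_inj s h)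

lemma hcen (s : T) (z : Bl s) (hz : ∀ x, z * x = x * z) (hzz : z * z = z) : z = 0 ∨ z = 1 := by
  set f := Matrix.toEuclideanCLM (𝕜 := ℂ) (n := Ix s) with hf
  obtain ⟨M, rfl⟩ := EquivLike.surjective f z
  have h1 : M ∈ Set.range (Matrix.scalar (Ix s)) := by
    apply Matrix.mem_range_scalar_of_commute_single
    intro i j _
    have := hz (f (Matrix.single i j 1))
    rw [← map_mul, ← map_mul] at this
    exact (f.injective this).symm
  obtain ⟨c, rfl⟩ := h1
  have h2 : Matrix.scalar (Ix s) c * Matrix.scalar (Ix s) c = Matrix.scalar (Ix s) c := by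
    apply f.injective
    rw [map_mul]; exact hzz
  have h3 : c * c = c := by
    have := congrFun (congrFun h2 (Sum.inl 0)) (Sum.inl 0)
    simpa [Matrix.diagonal_mul_diagonal] using this
  have h4 : c = 0 ∨ c = 1 := by
    have : c * (c - 1) = 0 := by rw [mul_sub, h3, mul_one, sub_self]
    rcases mul_eq_zero.1 this with h | h
    · exact Or.inl h
    · exact Or.inr (sub_eq_zero.1 h)
  rcases h4 with rfl | rfl
  · left; rw [map_zero, map_zero]
  · right; rw [map_one, map_one]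

lemma hdim (s r : T) (h : Nonempty (Bl s ≃ₗ[ℂ] Bl r)) : s = r := by
  obtain ⟨g⟩ := h
  have h1 : Matrix (Ix s) (Ix s) ℂ ≃ₗ[ℂ] Matrix (Ix r) (Ix r) ℂ :=
    ((Matrix.toEuclideanCLM (𝕜 := ℂ) (n := Ix s)).toAlgEquiv.toLinearEquiv.trans g).trans
      (Matrix.toEuclideanCLM (𝕜 := ℂ) (n := Ix r)).toAlgEquiv.toLinearEquiv.symm
  have h2 := h1.finrank_eq
  rw [Module.finrank_matrix, Module.finrank_matrix] at h2
  simp only [Fintype.card_sum, Fintype.card_fin, Module.finrank_self, mul_one] at h2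
  have h3 : Encodable.encode s = Encodable.encode r := by
    have := Nat.mul_self_inj.1 h2
    omega
  exact Encodable.encode_injective h3

instance (s : T) : Nontrivial (Bl s) :=
  ⟨⟨Pr s 0, 0, proj.ne s 0⟩⟩

theorem main : ¬ SeparableSpace (Alg Pr proj) ∧
    (∃ S : Set (NonUnitalStarSubalgebra ℂ (Alg Pr proj)), DirectedOn (· ≤ ·) S ∧
      (∀ s ∈ S, FiniteDimensional ℂ (Submodule.span ℂ (s : Set (Alg Pr proj)))) ∧
      Dense (⋃ s ∈ S, (s : Set (Alg Pr proj)))) ∧
    IsEmpty (Alg Pr proj ≃⋆ₐ[ℂ] (Alg Pr proj)ᵐᵒᵖ) := by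
  refine ⟨not_separable proj, af proj, not_iso_op proj hcen hdim lam0 ?_ ?_ ?_⟩
  · simp [lam0]
  · have h1 : ‖lam0‖ ^ 2 ≤ (1 / 2) ^ 2 := by
      rw [← Complex.normSq_eq_norm_sq, Complex.normSq_apply]
      simp [lam0]; norm_num
    exact le_of_sq_le_sq h1 (by norm_num)
  · intro s
    rw [Pr, Pr, Pr, ← em_mul, ← em_mul, ← em_mul, Q_prod, em_smul]

end Pool.Agent.H400R3.AFOp
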